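import Mathlib

/-! Project TF (MP_629dac_al), block J, part 2: expansion of `(α + t β) ^ n` in a non-commutative algebra
and vanishing of the coefficients of a polynomial function. -/

namespace Pool.Agent.Helper39.TF

open Finset

/-- the coefficient of `t ^ j` in `(α + t β) ^ n` -/
def cf {R : Type*} [Ring R] (α β : R) : ℕ → ℕ → R
  | 0, 0 => 1
  | 0, (_ + 1) => 0
  | (n + 1), 0 => α * cf α β n 0
  | (n + 1), (j + 1) => α * cf α β n (j + 1) + β * cf α β n j

theorem cf_zero {R : Type*} [Ring R] (α β : R) (n : ℕ) : cf α β n 0 = α ^ n := by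
  induction n with
  | zero => simp [cf]
  | succ n ih => rw [cf, ih, pow_succ']

theorem cf_big {R : Type*} [Ring R] (α β : R) (n : ℕ) : ∀ j, n < j → cf α β n j = 0 := by
  induction n with
  | zero =>
    intro j hj
    obtain ⟨i, rfl⟩ := Nat.exists_eq_succ_of_ne_zero (by omega : j ≠ 0)
    rfl
  | succ n ih =>
    intro j hj
    obtain ⟨i, rfl⟩ := Nat.exists_eq_succ_of_ne_zero (by omega : j ≠ 0)
    change α * cf α β n (i + 1) + β * cf α β n i = 0
    rw [ih (i + 1) (by omega), ih i (by omega), mul_zero, mul_zero, add_zero]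

theorem pow_expand {K R : Type*} [Field K] [Ring R] [Algebra K R] (α β : R) (t : K) (n : ℕ) :
    (α + t • β) ^ n = ∑ j ∈ range (n + 1), t ^ j • cf α β n j := by
  induction n with
  | zero => simp [cf]
  | succ n ih =>
    rw [pow_succ', ih, add_mul, Finset.mul_sum, Finset.mul_sum]
    have e1 : ∀ j, α * (t ^ j • cf α β n j) = t ^ j • (α * cf α β n j) := fun j => by
      rw [mul_smul_comm]
    have e2 : ∀ j, (t • β) * (t ^ j • cf α β n j) = t ^ (j + 1) • (β * cf α β n j) := fun j => by
      rw [smul_mul_smul_comm, pow_succ']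
    simp only [e1, e2]
    rw [Finset.sum_range_succ' (fun j => t ^ j • cf α β (n + 1) j) (n + 1)]
    have e3 : ∀ j, t ^ (j + 1) • cf α β (n + 1) (j + 1)
        = t ^ (j + 1) • (α * cf α β n (j + 1)) + t ^ (j + 1) • (β * cf α β n j) := fun j => by
      rw [← smul_add]; rfl
    simp only [e3, Finset.sum_add_distrib]
    have e4 : ∑ j ∈ range (n + 1), t ^ (j + 1) • (α * cf α β n (j + 1))
        + t ^ 0 • (α * cf α β n 0) = ∑ j ∈ range (n + 1), t ^ j • (α * cf α β n j) := by
      rw [← Finset.sum_range_succ' (fun j => t ^ j • (α * cf α β n j)) (n + 1),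
        Finset.sum_range_succ, cf_big α β n (n + 1) (by omega), mul_zero, smul_zero, add_zero]
    rw [← e4]
    change _ = _ + t ^ 0 • (α * cf α β n 0)
    abel

theorem coeff_zero {K V : Type*} [Field K] [CharZero K] [AddCommGroup V] [Module K V] (N : ℕ)
    (v : ℕ → V) (h : ∀ t : K, ∑ j ∈ range N, t ^ j • v j = 0) (j : ℕ) (hj : j < N) : v j = 0 := by
  rw [← Module.forall_dual_apply_eq_zero_iff K]
  intro f
  let p : Polynomial K := ∑ i ∈ range N, Polynomial.C (f (v i)) * Polynomial.X ^ i
  have hp : p = 0 := by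
    apply Polynomial.funext
    intro t
    have h1 := congrArg f (h t)
    rw [map_sum, map_zero] at h1
    rw [Polynomial.eval_zero, ← h1, Polynomial.eval_finsetSum]
    refine Finset.sum_congr rfl fun i _ => ?_
    rw [map_smul, Polynomial.eval_mul, Polynomial.eval_C, Polynomial.eval_pow, Polynomial.eval_X,
      smul_eq_mul, mul_comm]
  have h2 : p.coeff j = f (v j) := by
    simp only [p, Polynomial.finsetSum_coeff, Polynomial.coeff_C_mul_X_pow]
    rw [Finset.sum_eq_single j]
    · simp
    · intro i _ hij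
      rw [if_neg (Ne.symm hij)]
    · intro h3
      exact absurd (Finset.mem_range.mpr hj) h3
  rw [← h2, hp, Polynomial.coeff_zero]

/-- the coefficient of `t` in `(α + t β) ^ n (u + t v)` -/
theorem first_coeff {K V : Type*} [Field K] [CharZero K] [AddCommGroup V] [Module K V]
    (α β : Module.End K V) (u v : V) (n : ℕ)
    (h : ∀ t : K, ((α + t • β) ^ n) (u + t • v) = 0) :
    cf α β n 1 u + cf α β n 0 v = 0 := by
  let c : ℕ → V := fun j => match j with
    | 0 => cf α β n 0 u
    | (i + 1) => cf α β n (i + 1) u + cf α β n i v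
  have hc : ∀ t : K, ∑ j ∈ range (n + 2), t ^ j • c j = 0 := by
    intro t
    rw [← h t, pow_expand, Finset.sum_range_succ' (fun j => t ^ j • c j) (n + 1)]
    have e3 : ∀ j, t ^ (j + 1) • c (j + 1)
        = t ^ (j + 1) • (cf α β n (j + 1) u) + t ^ (j + 1) • (cf α β n j v) := fun j => by
      rw [← smul_add]
    simp only [e3, Finset.sum_add_distrib]
    have e4 : ∑ j ∈ range (n + 1), t ^ (j + 1) • (cf α β n (j + 1) u)
        + t ^ 0 • (cf α β n 0 u) = ∑ j ∈ range (n + 1), t ^ j • (cf α β n j u) := by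
      rw [← Finset.sum_range_succ' (fun j => t ^ j • (cf α β n j u)) (n + 1),
        Finset.sum_range_succ, cf_big α β n (n + 1) (by omega)]
      simp
    have e5 : (∑ j ∈ range (n + 1), t ^ j • cf α β n j) (u + t • v)
        = ∑ j ∈ range (n + 1), t ^ j • (cf α β n j u)
          + ∑ j ∈ range (n + 1), t ^ (j + 1) • (cf α β n j v) := by
      rw [LinearMap.sum_apply, ← Finset.sum_add_distrib]
      refine Finset.sum_congr rfl fun j _ => ?_
      rw [LinearMap.smul_apply, map_add, map_smul, smul_add, smul_smul, pow_succ]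
    rw [e5, ← e4]
    change _ + t ^ 0 • (cf α β n 0 u) = _
    abel
  exact coeff_zero (n + 2) c hc 1 (by omega)

end Pool.Agent.Helper39.TF
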