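import Mathlib

/-! Project TF (MP_629dac_al), block J, part 1: two linear recursions in a commutative ring.
`al k` is the operator of multiplication by the `k`-th power, `hh` the derivative of the power. -/

namespace Pool.Agent.Helper39.TF

section comm

variable {R : Type*} [CommRing R]

/-- `al 0 = 1`, `al 1 = a`, `al (k + 2) = 2 a al (k + 1) - P al k` -/
def al (a P : R) : ℕ → R
  | 0 => 1
  | 1 => a
  | (k + 2) => 2 * a * al a P (k + 1) - P * al a P k

/-- `hh 0 = 1`, `hh (k + 1) = al (k + 1) + a hh k` -/
def hh (a P : R) : ℕ → R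
  | 0 => 1
  | (k + 1) => al a P (k + 1) + a * hh a P k

theorem al_zero (a P : R) : al a P 0 = 1 := rfl

theorem al_one (a P : R) : al a P 1 = a := rfl

theorem al_two (a P : R) (k : ℕ) :
    al a P (k + 2) = 2 * a * al a P (k + 1) - P * al a P k := rfl

theorem hh_zero (a P : R) : hh a P 0 = 1 := rfl

theorem hh_succ (a P : R) (k : ℕ) : hh a P (k + 1) = al a P (k + 1) + a * hh a P k := rfl

theorem al_add_aux (a P : R) (k : ℕ) :
    (∀ n, al a P (n + 2 * k) + P ^ k * al a P n = 2 * al a P (n + k) * al a P k) ∧
    (∀ n, al a P (n + 2 * (k + 1)) + P ^ (k + 1) * al a P n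
      = 2 * al a P (n + (k + 1)) * al a P (k + 1)) := by
  induction k with
  | zero =>
    refine ⟨fun n => ?_, fun n => ?_⟩
    · simp only [mul_zero, add_zero, pow_zero, one_mul, al_zero]
      ring
    · simp only [zero_add, mul_one, pow_one, al_one, al_two]
      ring
  | succ k ih =>
    obtain ⟨ih1, ih2⟩ := ih
    refine ⟨ih2, fun n => ?_⟩
    have h1 := ih2 (n + 1)
    have h2 := ih1 (n + 2)
    have e1 : n + 1 + 2 * (k + 1) = n + 2 * k + 3 := by ring
    have e2 : n + 1 + (k + 1) = n + k + 2 := by ring
    have e3 : n + 2 + 2 * k = n + 2 * k + 2 := by ring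
    have e4 : n + 2 + k = n + k + 2 := by ring
    have e5 : n + 2 * (k + 1 + 1) = n + 2 * k + 2 + 2 := by ring
    have e6 : n + (k + 1 + 1) = n + k + 2 := by ring
    rw [e1, e2] at h1
    rw [e3, e4] at h2
    rw [e5, e6]
    have h3 : al a P (n + 2 * k + 2 + 2)
      = 2 * a * al a P (n + 2 * k + 3) - P * al a P (n + 2 * k + 2) := al_two a P _
    have h4 : al a P (n + 2) = 2 * a * al a P (n + 1) - P * al a P n := al_two a P _
    have h5 : al a P (k + 1 + 1) = 2 * a * al a P (k + 1) - P * al a P k := al_two a P _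
    rw [h3, h5]
    rw [h4] at h2
    linear_combination (2 * a) * h1 - P * h2

theorem al_add (a P : R) (k n : ℕ) :
    al a P (n + 2 * k) + P ^ k * al a P n = 2 * al a P (n + k) * al a P k :=
  (al_add_aux a P k).1 n

/-- `P ^ k = 2 (al k) ^ 2 - al (2 k)` -/
theorem pow_eq (a P : R) (k : ℕ) : P ^ k = 2 * al a P k * al a P k - al a P (2 * k) := by
  have h := al_add a P k 0
  rw [zero_add, zero_add, al_zero, mul_one] at h
  rw [← h]
  ring

theorem hh_two (a P : R) (k : ℕ) :
    hh a P (k + 2) = 2 * a * hh a P (k + 1) - P * hh a P k := by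
  induction k with
  | zero =>
    simp only [hh_succ, hh_zero, al_two, al_one, al_zero, zero_add]
    ring
  | succ k ih =>
    have h1 : hh a P (k + 1 + 2) = al a P (k + 1 + 2) + a * hh a P (k + 2) := hh_succ a P _
    have h2 : hh a P (k + 1 + 1) = al a P (k + 2) + a * hh a P (k + 1) := hh_succ a P _
    have h3 : hh a P (k + 1) = al a P (k + 1) + a * hh a P k := hh_succ a P _
    have h4 : al a P (k + 1 + 2) = 2 * a * al a P (k + 2) - P * al a P (k + 1) := al_two a P _
    have h5 : hh a P (k + 2) = al a P (k + 2) + a * hh a P (k + 1) := hh_succ a P _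
    rw [h1, h4, h2]
    linear_combination a * ih + P * h3 - a * h5

/-- the ideal generated by two consecutive `hh` contains a power of `P` -/
theorem pow_mem (a P : R) (n : ℕ) :
    ∃ u v : R, P ^ n = u * hh a P (n + 1) + v * hh a P n := by
  induction n with
  | zero => exact ⟨0, 1, by simp [hh_zero]⟩
  | succ n ih =>
    obtain ⟨u, v, h⟩ := ih
    refine ⟨-v, P * u + 2 * a * v, ?_⟩
    have h1 : hh a P (n + 1 + 1) = 2 * a * hh a P (n + 1) - P * hh a P n := hh_two a P n
    rw [pow_succ, h, h1]
    ring

end comm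

section hom

open Polynomial

/-- universal commutative ring on two variables, mapped to two commuting elements -/
theorem exists_hom {E : Type*} [Ring E] (a P : E) (h : Commute a P) :
    ∃ f : (ℤ[X])[X] →+* E, f (C X) = a ∧ f X = P := by
  let f0 : ℤ[X] →+* E := eval₂RingHom' (Int.castRingHom E) a (fun n => Int.cast_commute n a)
  have hf0 : f0 X = a := by simp [f0]
  have hc : ∀ q : ℤ[X], Commute (f0 q) P := by
    intro q
    induction q using Polynomial.induction_on' with
    | add p q hp hq => rw [map_add]; exact hp.add_left hq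
    | monomial n c =>
      have : f0 (monomial n c) = (c : E) * a ^ n := by
        simp [f0]
      rw [this]
      exact (Int.cast_commute c P).mul_left (h.pow_left n)
  refine ⟨eval₂RingHom' f0 P hc, ?_, ?_⟩
  · simp [hf0]
  · simp

end hom

end Pool.Agent.Helper39.TF
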